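import Pool.Agent.R955.FD.Defs

/-! Piece UPP of project FD (helper955, MP_0880e2_an). -/

set_option autoImplicit false

namespace Pool.Agent.R510.FDUPP

open MeasureTheory Set Filter Topology Pool.Agent.R955.FD
open scoped ENNReal FourierTransform

universe u

theorem continuous_ch (s : ℝ) : Continuous fun ξ : ℝ => ch ξ s := by
  unfold ch
  fun_prop

theorem norm_ch (ξ s : ℝ) : ‖ch ξ s‖ = 1 := by
  unfold ch
  exact Complex.norm_exp_ofReal_mul_I _

section
variable {X : Type u} [NormedAddCommGroup X] [NormedSpace ℂ X]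

omit [NormedSpace ℂ X] in
theorem nice_continuous {g : ℝ → X} {A L : ℝ} (h : Nice g A L) : Continuous g := by
  obtain ⟨_, hL, _, hlip, _⟩ := h
  have : LipschitzWith L.toNNReal g := by
    refine LipschitzWith.of_dist_le_mul fun x y => ?_
    rw [dist_eq_norm, Real.dist_eq, Real.coe_toNNReal _ hL.le]
    exact hlip x y
  exact this.continuous

theorem nice_integrable {g : ℝ → X} {A L : ℝ} (h : Nice g A L) (s : ℝ) :
    Integrable fun ξ : ℝ => ch ξ s • g ξ := by
  have hc : Continuous fun ξ : ℝ => ch ξ s • g ξ := (continuous_ch s).smul (nice_continuous h)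
  refine hc.integrable_of_hasCompactSupport ?_
  refine HasCompactSupport.intro (isCompact_Icc : IsCompact (Icc (-A) A)) fun x hx => ?_
  have hx' : A ≤ |x| := by
    by_contra hlt
    push Not at hlt
    exact hx ⟨(abs_lt.mp hlt).1.le, (abs_lt.mp hlt).2.le⟩
  rw [h.2.2.2.2 x hx', smul_zero]

theorem ext_empty (g : ℝ → X) : Ext g ∅ = 0 := by
  funext s
  simp [Pool.Agent.R955.FD.Ext]

theorem ext_union {g : ℝ → X} {A L : ℝ} (h : Nice g A L) {K M : Set ℝ} (hM : M.OrdConnected)
    (hd : Disjoint K M) : Ext g (K ∪ M) = Ext g K + Ext g M := by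
  funext s
  simp only [Pool.Agent.R955.FD.Ext, Pi.add_apply]
  exact setIntegral_union hd hM.measurableSet (nice_integrable h s).integrableOn
    (nice_integrable h s).integrableOn

end

theorem t_UPP (h1 : S_BRI.{u}) (h2 : S_DEC.{u}) (h3 : S_SML.{u}) (h4 : S_COV) (h5 : S_FIN.{u})
    : S_UPP.{u} := by
  intro X _ _ _ p q hp hq hU
  obtain ⟨U, hU0, hU⟩ := hU
  refine ⟨U * (Real.pi / 2), by positivity, fun J hJ f hf => ?_⟩
  obtain ⟨A, L, hN, hfe, hDR⟩ := h1 X f hf
  set g := 𝓕 f with hg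
  obtain ⟨C, hC, hD1, _⟩ := h2 X g A L hN
  have hmeas : ∀ K : Set ℝ, K.OrdConnected → AEStronglyMeasurable (Ext g K) volume := fun K hK =>
    (hD1 K hK).1.aestronglyMeasurable
  have htri : Tri fun I => nR p (Ext g I) := by
    refine ⟨?_, fun K M hK hM hKM hd => ?_⟩
    · simp only [ext_empty, nR]
      exact eLpNorm_zero
    · have hadd := ext_union hN hM hd
      refine ⟨?_, ?_⟩
      · simp only [nR]
        rw [hadd]
        exact eLpNorm_add_le (hmeas K hK) (hmeas M hM) hp.le
      · simp only [nR]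
        have : Ext g K = Ext g (K ∪ M) - Ext g M := by
          rw [hadd]; simp
        rw [this]
        exact eLpNorm_sub_le (hmeas _ hKM) (hmeas M hM) hp.le
  have hsml : ∀ ε' : ℝ, 0 < ε' → ∃ κ : ℝ, 0 < κ ∧ ∀ (a : ℝ) (K : Set ℝ), K.OrdConnected →
      K ⊆ Icc a (a + κ) → nR p (Ext g K) ≤ ENNReal.ofReal ε' := h3 X g A L p hN hp
  have key : ∀ ε : ℝ, 0 < ε → nR p f ≤ ENNReal.ofReal (U * (Real.pi / 2)) *
      (lq q (fun i => nR p (Ext g (J i))) + ENNReal.ofReal ε) := by
    intro ε hε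
    obtain ⟨J', hJ', hfin, hle⟩ := h4 (fun I => nR p (Ext g I)) q J A ε htri hq hJ hsml hε
    have := h5 X g A L U p q J' hN hp hq hU0 hU hJ' hfin
    rw [← hfe] at this
    exact this.trans (mul_le_mul' le_rfl hle)
  have hJe : (fun i => nR p (DR (J i) f)) = fun i => nR p (Ext g (J i)) := by
    funext i
    rw [hDR (J i) (hJ.1 i)]
  rw [hJe]
  set B := lq q (fun i => nR p (Ext g (J i))) with hB
  set c := ENNReal.ofReal (U * (Real.pi / 2)) with hc
  have hlim : Tendsto (fun n : ℕ => c * (B + ENNReal.ofReal (1 / ((n : ℝ) + 1)))) atTop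
      (𝓝 (c * (B + 0))) := by
    refine ENNReal.Tendsto.const_mul ?_ (Or.inr ENNReal.ofReal_ne_top)
    refine Tendsto.add tendsto_const_nhds ?_
    have := ENNReal.tendsto_ofReal (tendsto_one_div_add_atTop_nhds_zero_nat (𝕜 := ℝ))
    simpa using this
  rw [add_zero] at hlim
  exact ge_of_tendsto' hlim fun n => key _ (by positivity)

end Pool.Agent.R510.FDUPP
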