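import Mathlib

set_option autoImplicit false

/-!
# Initial segments of a unimodular sequence are not flat from below

Rouche's theorem for polynomials is taken from `Pool.Agent.Helper550.Semi` (starting files).
-/

namespace Pool.Agent.R510.Flat

open Polynomial Complex Metric Filter Topology
open scoped Real

section rou

/-- number of zeros in the open disc of radius `r` -/
noncomputable def nz (r : ℝ) (f : ℂ[X]) : ℕ := by
  classical
  exact (f.roots.filter (fun z => ‖z‖ < r)).card

theorem integral_inv_out {r : ℝ} {w : ℂ} (hr : 0 < r) (hw : r < ‖w‖) :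
    (∮ z in C(0, r), (z - w)⁻¹) = 0 := by
  apply DiffContOnCl.circleIntegral_eq_zero hr.le
  have hne : ∀ z ∈ closedBall (0 : ℂ) r, z - w ≠ 0 := by
    intro z hz h
    rw [sub_eq_zero] at h
    rw [mem_closedBall_zero_iff, h] at hz
    linarith
  apply DifferentiableOn.diffContOnCl
  intro z hz
  rw [closure_ball (0 : ℂ) hr.ne'] at hz
  exact ((differentiableAt_id.sub_const w).inv (hne z hz)).differentiableWithinAt

theorem circleIntegrable_inv {r : ℝ} {w : ℂ} (hr : 0 < r) (hw : ‖w‖ ≠ r) :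
    CircleIntegrable (fun z => (z - w)⁻¹) 0 r := by
  apply ContinuousOn.circleIntegrable hr.le
  apply ContinuousOn.inv₀
  · fun_prop
  · intro z hz h
    rw [sub_eq_zero] at h
    rw [mem_sphere_zero_iff_norm, h] at hz
    exact hw hz

theorem integral_multiset {r : ℝ} (hr : 0 < r) (s : Multiset ℂ) (hs : ∀ w ∈ s, ‖w‖ ≠ r) :
    CircleIntegrable (fun z => (s.map (fun w => (z - w)⁻¹)).sum) 0 r ∧
    (∮ z in C(0, r), (s.map (fun w => (z - w)⁻¹)).sum) =
      (2 * π * I) * ((by classical exact (s.filter (fun z => ‖z‖ < r)).card : ℕ) : ℂ) := by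
  classical
  induction s using Multiset.induction_on with
  | empty =>
    constructor
    · simp only [Multiset.map_zero, Multiset.sum_zero]
      exact circleIntegrable_const 0 0 r
    · simp [circleIntegral]
  | cons a s ih =>
    obtain ⟨ih1, ih2⟩ := ih (fun w hw => hs w (Multiset.mem_cons_of_mem hw))
    have ha := hs a (Multiset.mem_cons_self a s)
    have hai := circleIntegrable_inv hr ha
    simp only [Multiset.map_cons, Multiset.sum_cons]
    refine ⟨hai.add ih1, ?_⟩
    rw [circleIntegral.integral_add hai ih1, ih2]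
    by_cases hlt : ‖a‖ < r
    · rw [Multiset.filter_cons_of_pos (p := fun z : ℂ => ‖z‖ < r) s hlt, Multiset.card_cons,
        circleIntegral.integral_sub_inv_of_mem_ball (by rw [mem_ball_zero_iff]; exact hlt)]
      push_cast
      ring
    · rw [Multiset.filter_cons_of_neg (p := fun z : ℂ => ‖z‖ < r) s hlt, integral_inv_out hr (lt_of_le_of_ne (not_lt.mp hlt) (Ne.symm ha)),
        zero_add]

theorem logDeriv_eq {f : ℂ[X]} {z : ℂ} (hz : f.eval z ≠ 0) :
    f.derivative.eval z / f.eval z = (f.roots.map (fun w => (z - w)⁻¹)).sum := by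
  rw [(IsAlgClosed.splits f).eval_derivative_div_eval_of_ne_zero hz]
  simp only [one_div]

theorem integral_logDeriv {r : ℝ} (hr : 0 < r) {f : ℂ[X]} (hf : ∀ z : ℂ, ‖z‖ = r → f.eval z ≠ 0) :
    CircleIntegrable (fun z => f.derivative.eval z / f.eval z) 0 r ∧
    (∮ z in C(0, r), f.derivative.eval z / f.eval z) = (2 * π * I) * (nz r f : ℂ) := by
  classical
  have hs : ∀ w ∈ f.roots, ‖w‖ ≠ r := by
    intro w hw hwr
    have hf0 : f ≠ 0 := by
      rintro rfl
      simp at hw
    exact hf w hwr ((mem_roots hf0).mp hw)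
  obtain ⟨h1, h2⟩ := integral_multiset hr f.roots hs
  constructor
  · apply ContinuousOn.circleIntegrable hr.le
    apply ContinuousOn.div
    · fun_prop
    · fun_prop
    · intro z hz
      exact hf z (mem_sphere_zero_iff_norm.mp hz)
  · have h3 : (∮ z in C(0, r), f.derivative.eval z / f.eval z) =
        ∮ z in C(0, r), (f.roots.map (fun w => (z - w)⁻¹)).sum := by
      apply circleIntegral.integral_congr hr.le
      intro z hz
      exact logDeriv_eq (hf z (mem_sphere_zero_iff_norm.mp hz))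
    rw [h3, h2]
    rfl

/-- Rouche's theorem for polynomials on circles centred at the origin. -/
theorem rouche {r : ℝ} (hr : 0 < r) {f g : ℂ[X]}
    (h : ∀ z : ℂ, ‖z‖ = r → ‖f.eval z - g.eval z‖ < ‖f.eval z‖) : nz r f = nz r g := by
  have hf : ∀ z : ℂ, ‖z‖ = r → f.eval z ≠ 0 := by
    intro z hz h0
    have := h z hz
    rw [h0, norm_zero] at this
    exact absurd this (not_lt.mpr (norm_nonneg _))
  have hg : ∀ z : ℂ, ‖z‖ = r → g.eval z ≠ 0 := by
    intro z hz h0
    have := h z hz
    rw [h0, sub_zero] at this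
    exact lt_irrefl _ this
  obtain ⟨f1, f2⟩ := integral_logDeriv hr hf
  obtain ⟨g1, g2⟩ := integral_logDeriv hr hg
  have h0 : (∮ z in C(0, r), (g.derivative.eval z / g.eval z - f.derivative.eval z / f.eval z)) = 0 := by
    apply circleIntegral.integral_eq_zero_of_hasDerivWithinAt (f := fun z => Complex.log (g.eval z / f.eval z)) hr.le
    intro z hz
    have hz' : ‖z‖ = r := mem_sphere_zero_iff_norm.mp hz
    have hfz := hf z hz'
    have hgz := hg z hz'
    have hslit : g.eval z / f.eval z ∈ Complex.slitPlane := by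
      have h1 : ‖g.eval z / f.eval z - 1‖ < 1 := by
        have h2 : g.eval z / f.eval z - 1 = (g.eval z - f.eval z) / f.eval z := by
          field_simp
        rw [h2, norm_div, div_lt_one (norm_pos_iff.mpr hfz), norm_sub_rev]
        exact h z hz'
      have h3 : 0 < (g.eval z / f.eval z).re := by
        have h4 := (abs_le.mp ((Complex.abs_re_le_norm (g.eval z / f.eval z - 1)).trans h1.le)).1
        have h5 : |(g.eval z / f.eval z - 1).re| < 1 := (Complex.abs_re_le_norm _).trans_lt h1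
        rw [Complex.sub_re, Complex.one_re] at h5
        have h6 := (abs_lt.mp h5).1
        linarith
      exact Or.inl h3
    have hd1 : HasDerivAt (fun w => g.eval w / f.eval w)
        ((g.derivative.eval z * f.eval z - g.eval z * f.derivative.eval z) / (f.eval z) ^ 2) z :=
      (g.hasDerivAt z).div (f.hasDerivAt z) hfz
    have hd2 := hd1.clog hslit
    have h7 : g.derivative.eval z / g.eval z - f.derivative.eval z / f.eval z =
        (g.derivative.eval z * f.eval z - g.eval z * f.derivative.eval z) / (f.eval z) ^ 2 /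
          (g.eval z / f.eval z) := by
      field_simp
    rw [h7]
    exact hd2.hasDerivWithinAt
  rw [circleIntegral.integral_sub g1 f1, f2, g2, ← mul_sub, mul_eq_zero] at h0
  have h8 : (2 * π * I : ℂ) ≠ 0 := by
    simp [Real.pi_ne_zero]
  have h9 := h0.resolve_left h8
  rw [sub_eq_zero] at h9
  exact_mod_cast h9.symm

end rou

/-- a multiset of numbers of absolute value at least `1/2` -/
theorem prod_max_le (s : Multiset ℂ) (hs : ∀ z ∈ s, 1 / 2 ≤ ‖z‖) :
    (s.map (fun a => max 1 ‖a‖)).prod ≤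
      (s.map (fun a => ‖a‖)).prod * 2 ^ ((by classical exact (s.filter (fun z => ‖z‖ < 1)).card : ℕ)) := by
  classical
  induction s using Multiset.induction_on with
  | empty => simp
  | cons a s ih =>
    have ih' := ih (fun z hz => hs z (Multiset.mem_cons_of_mem hz))
    have ha := hs a (Multiset.mem_cons_self a s)
    have h0 : 0 ≤ (s.map (fun a => max 1 ‖a‖)).prod := by
      apply Multiset.prod_nonneg
      intro x hx
      obtain ⟨y, _, rfl⟩ := Multiset.mem_map.mp hx
      positivity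
    rw [Multiset.map_cons, Multiset.map_cons, Multiset.prod_cons, Multiset.prod_cons]
    by_cases hlt : ‖a‖ < 1
    · rw [Multiset.filter_cons_of_pos (p := fun z : ℂ => ‖z‖ < 1) s hlt, Multiset.card_cons,
        max_eq_left hlt.le, one_mul, pow_succ]
      calc _ ≤ _ := ih'
        _ ≤ 2 * ‖a‖ * ((s.map (fun a => ‖a‖)).prod * 2 ^ (s.filter (fun z => ‖z‖ < 1)).card) := by
            apply le_mul_of_one_le_left (h0.trans ih')
            linarith
        _ = _ := by ring
    · rw [Multiset.filter_cons_of_neg (p := fun z : ℂ => ‖z‖ < 1) s hlt,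
        max_eq_right (not_lt.mp hlt), mul_assoc]
      exact mul_le_mul_of_nonneg_left ih' (norm_nonneg _)

/-- the Mahler measure is at most `2 ^ K`, with `K` the number of zeros in the open disc -/
theorem mahler_le {p : ℂ[X]} (h0 : ‖p.eval 0‖ = 1) (h : ∀ z ∈ p.roots, 1 / 2 ≤ ‖z‖) :
    p.mahlerMeasure ≤ 2 ^ (nz 1 p) := by
  classical
  rw [mahlerMeasure_eq_leadingCoeff_mul_prod_roots]
  have h1 := (IsAlgClosed.splits p).eval_eq_prod_roots 0
  have h2 : ‖p.leadingCoeff‖ * (p.roots.map (fun a => ‖a‖)).prod = 1 := by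
    rw [← h0, h1, norm_mul]
    congr 1
    have h3 : ∀ s : Multiset ℂ, (s.map (fun a => ‖a‖)).prod = ‖(s.map (fun a => (0 : ℂ) - a)).prod‖ := by
      intro s
      induction s using Multiset.induction_on with
      | empty => simp
      | cons a s ih => simp [ih]
    exact h3 _
  calc _ ≤ ‖p.leadingCoeff‖ * ((p.roots.map (fun a => ‖a‖)).prod * 2 ^ (nz 1 p)) :=
        mul_le_mul_of_nonneg_left (prod_max_le _ h) (norm_nonneg _)
    _ = 2 ^ (nz 1 p) := by rw [← mul_assoc, h2, one_mul]

/-- the Mahler measure is at least the minimum on the circle -/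
theorem le_mahler {p : ℂ[X]} {m : ℝ} (hm : 0 < m) (h : ∀ z : ℂ, ‖z‖ = 1 → m ≤ ‖p.eval z‖) :
    m ≤ p.mahlerMeasure := by
  have hp : p ≠ 0 := by
    rintro rfl
    have := h 1 (by simp)
    simp at this
    linarith
  unfold mahlerMeasure
  rw [if_pos hp, ← Real.log_le_iff_le_exp hm, logMahlerMeasure_def,
    ← Real.circleAverage_const (Real.log m) 0 1]
  apply Real.circleAverage_mono
  · exact circleIntegrable_const _ _ _
  · rw [circleIntegrable_def]
    exact p.intervalIntegrable_mahlerMeasure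
  · intro z hz
    have hz' : ‖z‖ = 1 := by
      rw [mem_sphere_zero_iff_norm] at hz
      simpa using hz
    exact Real.log_le_log hm (h z hz')

/-- `q a N = ∑_{n < N} a(n+1) X^n` -/
noncomputable def q (a : ℕ → ℂ) (N : ℕ) : ℂ[X] := ∑ n ∈ Finset.range N, C (a (n + 1)) * X ^ n

theorem eval_q (a : ℕ → ℂ) (N : ℕ) (z : ℂ) :
    (q a N).eval z = ∑ n ∈ Finset.range N, a (n + 1) * z ^ n := by
  unfold q
  rw [eval_finsetSum]
  simp

theorem q_succ (a : ℕ → ℂ) (N : ℕ) (z : ℂ) :
    (q a (N + 1)).eval z = (q a N).eval z + a (N + 1) * z ^ N := by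
  rw [eval_q, eval_q, Finset.sum_range_succ]

theorem q_zero {a : ℕ → ℂ} (ha : ∀ n, 1 ≤ n → ‖a n‖ = 1) {N : ℕ} (hN : 1 ≤ N) :
    ‖(q a N).eval 0‖ = 1 := by
  rw [eval_q, Finset.sum_eq_single 0]
  · simp [ha 1 le_rfl]
  · intro n _ hn
    simp [hn]
  · intro h
    exact absurd (Finset.mem_range.mpr (by omega)) h

theorem roots_q {a : ℕ → ℂ} (ha : ∀ n, 1 ≤ n → ‖a n‖ = 1) {N : ℕ} (hN : 1 ≤ N) :
    ∀ z ∈ (q a N).roots, 1 / 2 ≤ ‖z‖ := by
  intro z hz
  by_contra hlt
  rw [not_le] at hlt
  have hq : q a N ≠ 0 := by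
    intro h
    rw [h] at hz
    simp at hz
  have h0 : (q a N).eval z = 0 := (mem_roots hq).mp hz
  obtain ⟨M, rfl⟩ : ∃ M, N = M + 1 := ⟨N - 1, by omega⟩
  rw [eval_q, Finset.sum_range_succ', pow_zero, mul_one] at h0
  have h1 : ‖∑ n ∈ Finset.range M, a (n + 1 + 1) * z ^ (n + 1)‖ < 1 := by
    calc ‖∑ n ∈ Finset.range M, a (n + 1 + 1) * z ^ (n + 1)‖
        ≤ ∑ n ∈ Finset.range M, ‖z‖ ^ (n + 1) := by
          refine (norm_sum_le _ _).trans (Finset.sum_le_sum fun n _ => ?_)
          rw [norm_mul, ha _ (by omega), one_mul, norm_pow]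
      _ = ‖z‖ * ∑ n ∈ Finset.range M, ‖z‖ ^ n := by
          rw [Finset.mul_sum]
          exact Finset.sum_congr rfl fun n _ => by ring
      _ ≤ ‖z‖ * (1 - ‖z‖)⁻¹ := by
          apply mul_le_mul_of_nonneg_left _ (norm_nonneg _)
          rw [← tsum_geometric_of_lt_one (norm_nonneg _) (by linarith)]
          exact (summable_geometric_of_lt_one (norm_nonneg _) (by linarith)).sum_le_tsum _
            (fun n _ => by positivity)
      _ < 1 := by
          rw [← div_eq_mul_inv, div_lt_one (by linarith)]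
          linarith
  have h2 : ∑ n ∈ Finset.range M, a (n + 1 + 1) * z ^ (n + 1) = -a (0 + 1) := by
    linear_combination h0
  rw [h2, norm_neg, ha _ (by omega)] at h1
  exact lt_irrefl _ h1

/-- If all the `q a N` for `N ≥ N₀` are larger than `1` on the unit circle, then their Mahler measures are
bounded. -/
theorem bounded {a : ℕ → ℂ} (ha : ∀ n, 1 ≤ n → ‖a n‖ = 1) {N₀ : ℕ} (hN : 1 ≤ N₀)
    (h : ∀ N, N₀ ≤ N → ∀ z : ℂ, ‖z‖ = 1 → 1 < ‖(q a N).eval z‖) (N : ℕ) (hNN : N₀ ≤ N) :
    (q a N).mahlerMeasure ≤ 2 ^ (nz 1 (q a N₀)) := by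
  have h1 : nz 1 (q a N) = nz 1 (q a N₀) := by
    induction N, hNN using Nat.le_induction with
    | base => rfl
    | succ n hn ih =>
      rw [← ih]
      symm
      apply rouche one_pos
      intro z hz
      rw [q_succ, sub_add_cancel_left, norm_neg, norm_mul, ha _ (by omega), norm_pow, hz, one_pow,
        one_mul]
      exact h n hn z hz
  rw [← h1]
  exact mahler_le (q_zero ha (by omega)) (roots_q ha (by omega))

/-- `S_N(θ) = ∑_{n=1}^N a(n) e^{2 π i n θ}` -/
noncomputable def S (a : ℕ → ℂ) (N : ℕ) (θ : ℝ) : ℂ :=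
  ∑ n ∈ Finset.Icc 1 N, a n * Complex.exp (2 * π * I * n * θ)

theorem S_eq (a : ℕ → ℂ) (N : ℕ) (θ : ℝ) :
    S a N θ = Complex.exp (2 * π * I * θ) * (q a N).eval (Complex.exp (2 * π * I * θ)) := by
  induction N with
  | zero => simp [S, q]
  | succ N ih =>
    have h1 : S a (N + 1) θ = S a N θ + a (N + 1) * Complex.exp (2 * π * I * (N + 1 : ℕ) * θ) := by
      unfold S
      rw [Finset.sum_Icc_succ_top (by omega)]
    rw [h1, ih, q_succ, mul_add]
    congr 1
    have h2 : Complex.exp (2 * π * I * (N + 1 : ℕ) * θ) =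
        Complex.exp (2 * π * I * θ) * Complex.exp (2 * π * I * θ) ^ N := by
      rw [← Complex.exp_nat_mul, ← Complex.exp_add]
      congr 1
      push_cast
      ring
    rw [h2]
    ring

/-- the minimum does not tend to infinity -/
theorem frequently {a : ℕ → ℂ} (ha : ∀ n, 1 ≤ n → ‖a n‖ = 1) :
    ¬ Tendsto (fun N => ⨅ θ : ℝ, ‖S a N θ‖) atTop atTop := by
  intro h
  have bdd : ∀ N, BddBelow (Set.range fun θ : ℝ => ‖S a N θ‖) := fun N =>
    ⟨0, by rintro _ ⟨θ, rfl⟩; exact norm_nonneg _⟩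
  have key : ∀ (N : ℕ) (z : ℂ), ‖z‖ = 1 → (⨅ θ : ℝ, ‖S a N θ‖) ≤ ‖(q a N).eval z‖ := by
    intro N z hz
    obtain ⟨t, ht⟩ : ∃ t : ℝ, Complex.exp (2 * π * I * t) = z := by
      refine ⟨Complex.arg z / (2 * π), ?_⟩
      have h1 := Complex.norm_mul_exp_arg_mul_I z
      rw [hz, Complex.ofReal_one, one_mul] at h1
      have h2 : (2 * π * I * ((Complex.arg z / (2 * π) : ℝ) : ℂ)) = Complex.arg z * I := by
        have h3 : (π : ℂ) ≠ 0 := by exact_mod_cast Real.pi_ne_zero
        push_cast
        field_simp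
      rw [h2, h1]
    refine (ciInf_le (bdd N) t).trans ?_
    rw [S_eq, norm_mul, ht, hz, one_mul]
  obtain ⟨N₀, h0⟩ := (h.eventually_gt_atTop 1).exists_forall_of_atTop
  have hb := bounded ha (N₀ := max N₀ 1) (le_max_right _ _) (fun N hN z hz =>
    (h0 N (le_trans (le_max_left _ _) hN)).trans_le (key N z hz))
  obtain ⟨N₁, h1⟩ := (h.eventually_gt_atTop (2 ^ (nz 1 (q a (max N₀ 1))))).exists_forall_of_atTop
  have h2 := h1 (max N₁ (max N₀ 1)) (le_max_left _ _)
  have h3 := hb (max N₁ (max N₀ 1)) (le_max_right _ _)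
  have h4 : (⨅ θ : ℝ, ‖S a (max N₁ (max N₀ 1)) θ‖) ≤ (q a (max N₁ (max N₀ 1))).mahlerMeasure :=
    le_mahler (lt_trans (by positivity) h2) (key _)
  linarith

end Pool.Agent.R510.Flat
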