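import Pool.Agent.R739.SF.Defs

/-! Piece CTB of project SF (helper739, MP_c9a594_an), by helper510. -/

set_option autoImplicit false

namespace Pool.Agent.R510

open Finset Filter Topology Pool.Agent.R739.SF

namespace SFCTB

theorem grow {n : ℕ → ℕ} {K0 : ℕ} (h : ∀ k, K0 ≤ k → n k + 1 ≤ n (k + 1)) {k : ℕ} (hk : K0 ≤ k)
    (l : ℕ) : n k + l ≤ n (k + l) := by
  induction l with
  | zero => exact le_rfl
  | succ l ih =>
    have := h (k + l) (by omega)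
    have e : k + (l + 1) = k + l + 1 := by ring
    rw [e]
    omega

theorem term_le {b : ℕ} (hb : 2 ≤ b) {M : ℕ} {d : ℕ → ℤ} (hd : ∀ k, |d k| ≤ M) {n : ℕ → ℕ}
    {k l c : ℕ} (h : c + l ≤ n k) :
    ‖(d k : ℝ) / (b : ℝ) ^ (n k)‖ ≤ (M / (b : ℝ) ^ c) * (1 / 2) ^ l := by
  have hb' : (2 : ℝ) ≤ b := by exact_mod_cast hb
  have hb0 : (0 : ℝ) < b := by linarith
  have h1 : |(d k : ℝ)| ≤ M := by exact_mod_cast hd k
  rw [norm_div, Real.norm_eq_abs, norm_pow, Real.norm_eq_abs, abs_of_pos hb0]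
  have h2 : (b : ℝ) ^ c * 2 ^ l ≤ (b : ℝ) ^ (n k) := by
    calc (b : ℝ) ^ c * 2 ^ l ≤ (b : ℝ) ^ c * (b : ℝ) ^ l := by gcongr
      _ = (b : ℝ) ^ (c + l) := (pow_add _ _ _).symm
      _ ≤ (b : ℝ) ^ (n k) := pow_le_pow_right₀ (by linarith) h
  calc |(d k : ℝ)| / (b : ℝ) ^ (n k) ≤ M / ((b : ℝ) ^ c * 2 ^ l) := by gcongr
    _ = (M / (b : ℝ) ^ c) * (1 / 2) ^ l := by
      rw [one_div, inv_pow, div_mul_eq_div_div, div_eq_mul_inv _ ((2:ℝ) ^ l)]

theorem tail_le {b : ℕ} (hb : 2 ≤ b) {M : ℕ} {d : ℕ → ℤ} (hd : ∀ k, |d k| ≤ M) {n : ℕ → ℕ}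
    {K0 : ℕ} (h : ∀ k, K0 ≤ k → n k + 1 ≤ n (k + 1)) {k : ℕ} (hk : K0 ≤ k) :
    ‖∑' l, (d (l + k) : ℝ) / (b : ℝ) ^ (n (l + k))‖ ≤ (M / (b : ℝ) ^ (n k)) * 2 := by
  refine tsum_of_norm_bounded (hasSum_geometric_two.mul_left _) fun l => ?_
  have := grow h hk l
  rw [add_comm l k]
  exact term_le hb hd this

theorem summ {b : ℕ} (hb : 2 ≤ b) {M : ℕ} {d : ℕ → ℤ} (hd : ∀ k, |d k| ≤ M) {n : ℕ → ℕ}
    {K0 : ℕ} (h : ∀ k, K0 ≤ k → n k + 1 ≤ n (k + 1)) :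
    Summable fun k => (d k : ℝ) / (b : ℝ) ^ (n k) := by
  rw [← summable_nat_add_iff K0]
  refine Summable.of_norm_bounded (g := fun l => (M / (b : ℝ) ^ (n K0)) * (1 / 2) ^ l)
    (summable_geometric_two.mul_left _) fun l => ?_
  have := grow h le_rfl l
  rw [add_comm l K0]
  exact term_le hb hd this

/-- the orbit is close to the points `i + D / b ^ j` -/
theorem star {b : ℕ} (hb : 2 ≤ b) {n : ℕ → ℕ}
    (hn : Tendsto (fun k => n (k + 1) - n k) atTop atTop) {M : ℕ} {d : ℕ → ℤ}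
    (hd : ∀ k, |d k| ≤ M) {ε : ℝ} (hε : 0 < ε) : ∃ N : ℕ, ∀ m, N ≤ m →
      ∃ (i D : ℤ) (j : ℕ), |D| ≤ M ∧
        |(b : ℝ) ^ m * (∑' k, (d k : ℝ) / (b : ℝ) ^ (n k)) - i - (D : ℝ) / (b : ℝ) ^ j| < ε := by
  have hb' : (2 : ℝ) ≤ b := by exact_mod_cast hb
  have hb0 : (0 : ℝ) < b := by linarith
  obtain ⟨G, hG⟩ : ∃ G : ℕ, 2 * (M : ℝ) / (b : ℝ) ^ G < ε := by
    have h1 : Tendsto (fun G : ℕ => 2 * (M : ℝ) * (1 / (b : ℝ)) ^ G) atTop (𝓝 0) := by
      have := (tendsto_pow_atTop_nhds_zero_of_lt_one (r := 1 / (b : ℝ)) (by positivity)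
        (by rw [div_lt_one hb0]; linarith)).const_mul (2 * (M : ℝ))
      simpa using this
    obtain ⟨G, hG⟩ := (h1.eventually (gt_mem_nhds hε)).exists
    refine ⟨G, ?_⟩
    rw [one_div, inv_pow] at hG
    rw [div_eq_mul_inv]
    exact hG
  obtain ⟨K0, hK0⟩ := (tendsto_atTop_atTop.1 hn) (G + 1)
  have hgap : ∀ k, K0 ≤ k → n k + (G + 1) ≤ n (k + 1) := by
    intro k hk
    have := hK0 k hk
    omega
  have hgap1 : ∀ k, K0 ≤ k → n k + 1 ≤ n (k + 1) := fun k hk => by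
    have := hgap k hk; omega
  refine ⟨∑ k ∈ range (K0 + 1), n k, fun m hm => ?_⟩
  have hlow : ∀ k, k ≤ K0 → n k ≤ m := by
    intro k hk
    have : n k ≤ ∑ k ∈ range (K0 + 1), n k :=
      Finset.single_le_sum (f := n) (fun _ _ => Nat.zero_le _) (mem_range.2 (by omega))
    omega
  have hex : ∃ k, K0 < k ∧ m < n k := by
    refine ⟨K0 + (m + 1), by omega, ?_⟩
    have := grow hgap1 le_rfl (m + 1)
    omega
  classical
  set k := Nat.find hex with hkd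
  have hk : K0 < k ∧ m < n k := Nat.find_spec hex
  have hlt : ∀ l, l < k → n l ≤ m := by
    intro l hl
    by_cases h0 : l ≤ K0
    · exact hlow l h0
    · have := Nat.find_min hex hl
      push Not at this
      exact this (by omega)
  have hs := summ hb hd hgap1
  have hsplit := hs.sum_add_tsum_nat_add (k + 1)
  rw [sum_range_succ] at hsplit
  refine ⟨∑ l ∈ range k, d l * (b : ℤ) ^ (m - n l), d k, n k - m, hd k, ?_⟩
  set Tl := ∑' i, (d (i + (k + 1)) : ℝ) / (b : ℝ) ^ (n (i + (k + 1))) with hTl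
  have htail : ‖Tl‖ ≤ (M / (b : ℝ) ^ (n (k + 1))) * 2 := tail_le hb hd hgap1 (by omega)
  have e1 : (b : ℝ) ^ m * ∑ l ∈ range k, (d l : ℝ) / (b : ℝ) ^ (n l) =
      ((∑ l ∈ range k, d l * (b : ℤ) ^ (m - n l) : ℤ) : ℝ) := by
    push_cast
    rw [mul_sum]
    refine sum_congr rfl fun l hl => ?_
    have h1 := hlt l (mem_range.1 hl)
    have h2 : (b : ℝ) ^ m = (b : ℝ) ^ (m - n l) * (b : ℝ) ^ (n l) := by
      rw [← pow_add]; congr 1; omega
    rw [h2]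
    field_simp
  have e2 : (b : ℝ) ^ m * ((d k : ℝ) / (b : ℝ) ^ (n k)) = (d k : ℝ) / (b : ℝ) ^ (n k - m) := by
    have h2 : (b : ℝ) ^ (n k) = (b : ℝ) ^ (n k - m) * (b : ℝ) ^ m := by
      rw [← pow_add]; congr 1; omega
    rw [h2]
    field_simp
  have e3 : (b : ℝ) ^ m * (∑' k, (d k : ℝ) / (b : ℝ) ^ (n k)) -
      ((∑ l ∈ range k, d l * (b : ℤ) ^ (m - n l) : ℤ) : ℝ) - (d k : ℝ) / (b : ℝ) ^ (n k - m) =
      (b : ℝ) ^ m * Tl := by
    rw [← hsplit, mul_add, mul_add, e1, e2]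
    ring
  rw [e3, abs_mul, abs_of_pos (by positivity)]
  rw [Real.norm_eq_abs] at htail
  have hmk : m + G ≤ n (k + 1) := by
    have := hgap k hk.1.le
    omega
  calc (b : ℝ) ^ m * |Tl| ≤ (b : ℝ) ^ m * ((M / (b : ℝ) ^ (n (k + 1))) * 2) := by gcongr
    _ ≤ (b : ℝ) ^ m * ((M / (b : ℝ) ^ (m + G)) * 2) := by
        gcongr
        linarith
    _ = 2 * (M : ℝ) / (b : ℝ) ^ G := by
        rw [pow_add]
        field_simp
    _ < ε := hG

end SFCTB

open SFCTB in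
theorem SF_CTB : STM_CTB := by
  intro b hb n hn M d hd
  have hb' : (2 : ℝ) ≤ b := by exact_mod_cast hb
  have hb0 : (0 : ℝ) < b := by linarith
  set x := ∑' k, (d k : ℝ) / (b : ℝ) ^ (n k) with hx
  set u : ℕ → ℝ := fun m => Int.fract ((b : ℝ) ^ m * x) with hu
  set P : ℤ × ℤ × ℕ → ℝ := fun p => (p.1 : ℝ) + (p.2.1 : ℝ) / (b : ℝ) ^ p.2.2 with hP
  have hcount : (Set.range u ∪ Set.range P).Countable :=
    (Set.countable_range u).union (Set.countable_range P)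
  refine hcount.mono fun z hz => ?_
  by_contra hcon
  rw [Set.mem_union, not_or] at hcon
  obtain ⟨hzu, hzP⟩ := hcon
  have hz' : z ∈ closure (Set.range u) := hz
  have hz01 : z ∈ Set.Icc (0 : ℝ) 1 := by
    have : Set.range u ⊆ Set.Icc (0 : ℝ) 1 := by
      rintro _ ⟨m, rfl⟩
      exact ⟨Int.fract_nonneg _, (Int.fract_lt_one _).le⟩
    exact closure_minimal this isClosed_Icc hz'
  have hint : ∀ i : ℤ, z ≠ i := fun i h => hzP ⟨(i, 0, 0), by simp [hP, h]⟩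
  have hz0 : 0 < z := lt_of_le_of_ne hz01.1 fun h => hint 0 (by simpa using h.symm)
  have hz1 : z < 1 := lt_of_le_of_ne hz01.2 fun h => hint 1 (by simpa using h)
  set η := min z (1 - z) with hη
  have hη0 : 0 < η := lt_min hz0 (by linarith)
  have hηi : ∀ i : ℤ, η ≤ |z - i| := by
    intro i
    rcases le_or_gt i 0 with hi | hi
    · have : (i : ℝ) ≤ 0 := by exact_mod_cast hi
      rw [abs_of_nonneg (by linarith)]
      exact (min_le_left _ _).trans (by linarith)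
    · have : (1 : ℝ) ≤ i := by exact_mod_cast hi
      rw [abs_of_nonpos (by linarith)]
      exact (min_le_right _ _).trans (by linarith)
  obtain ⟨J, hJ⟩ : ∃ J : ℕ, (M : ℝ) / (b : ℝ) ^ J < η / 2 := by
    have h1 : Tendsto (fun G : ℕ => (M : ℝ) * (1 / (b : ℝ)) ^ G) atTop (𝓝 0) := by
      have := (tendsto_pow_atTop_nhds_zero_of_lt_one (r := 1 / (b : ℝ)) (by positivity)
        (by rw [div_lt_one hb0]; linarith)).const_mul (M : ℝ)
      simpa using this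
    obtain ⟨G, hG⟩ := (h1.eventually (gt_mem_nhds (half_pos hη0))).exists
    refine ⟨G, ?_⟩
    rw [one_div, inv_pow] at hG
    rw [div_eq_mul_inv]
    exact hG
  -- the finite set of candidates
  set Q : Set ℝ := P '' (((Icc (-(M + 3 : ℤ)) (M + 3)) ×ˢ (Icc (-(M : ℤ)) M) ×ˢ (range J) :
    Finset (ℤ × ℤ × ℕ)) : Set (ℤ × ℤ × ℕ)) with hQ
  have hQf : Q.Finite := (Finset.finite_toSet _).image P
  have hzQ : z ∉ Q := by
    rintro ⟨p, -, hp⟩
    exact hzP ⟨p, hp⟩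
  obtain ⟨η2, hη2, hball⟩ := Metric.isOpen_iff.1 hQf.isClosed.isOpen_compl z hzQ
  have hQd : ∀ q ∈ Q, η2 ≤ |z - q| := by
    intro q hq
    by_contra hlt
    push Not at hlt
    have : q ∈ Metric.ball z η2 := by
      rw [Metric.mem_ball, Real.dist_eq, abs_sub_comm]; exact hlt
    exact hball this hq
  set ε := min (min (η / 8) (η2 / 4)) (1 / 4) with hε
  have hε0 : 0 < ε := by positivity
  have hε1 : ε ≤ η / 8 := (min_le_left _ _).trans (min_le_left _ _)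
  have hε2 : ε ≤ η2 / 4 := (min_le_left _ _).trans (min_le_right _ _)
  have hε3 : ε ≤ 1 / 4 := min_le_right _ _
  obtain ⟨N, hN⟩ := star hb hn hd hε0
  -- the first points of the orbit
  have hfin : (u '' (Set.Iio N)).Finite := (Set.finite_Iio N).image u
  have hzn : z ∉ u '' (Set.Iio N) := fun ⟨m, _, hm⟩ => hzu ⟨m, hm⟩
  obtain ⟨ε1, hε1', hball1⟩ := Metric.isOpen_iff.1 hfin.isClosed.isOpen_compl z hzn
  obtain ⟨w, ⟨m, rfl⟩, hm⟩ := Metric.mem_closure_iff.1 hz' (min ε ε1) (lt_min hε0 hε1')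
  have hmN : N ≤ m := by
    by_contra hlt
    push Not at hlt
    have : u m ∈ Metric.ball z ε1 := by
      rw [Metric.mem_ball, dist_comm]; exact hm.trans_le (min_le_right _ _)
    exact hball1 this ⟨m, hlt, rfl⟩
  obtain ⟨i, D, j, hD, hclose⟩ := hN m hmN
  have hzm : |z - u m| < ε := by
    have := hm.trans_le (min_le_left _ _)
    rwa [Real.dist_eq] at this
  have hum : u m = (b : ℝ) ^ m * x - ⌊(b : ℝ) ^ m * x⌋ := rfl
  set f := ⌊(b : ℝ) ^ m * x⌋ with hf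
  have hclose' : |u m - ((i - f : ℤ) : ℝ) - (D : ℝ) / (b : ℝ) ^ j| < ε := by
    have : u m - ((i - f : ℤ) : ℝ) - (D : ℝ) / (b : ℝ) ^ j =
        (b : ℝ) ^ m * x - i - (D : ℝ) / (b : ℝ) ^ j := by
      rw [hum]; push_cast; ring
    rw [this]; exact hclose
  set i' := i - f with hi'
  have hbj : (1 : ℝ) ≤ (b : ℝ) ^ j := one_le_pow₀ (by linarith)
  have hDr : |(D : ℝ)| ≤ M := by exact_mod_cast hD
  have hDj : |(D : ℝ) / (b : ℝ) ^ j| ≤ M / (b : ℝ) ^ j := by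
    rw [abs_div, abs_of_pos (by positivity : (0:ℝ) < (b : ℝ) ^ j)]
    gcongr
  have hDj' : |(D : ℝ) / (b : ℝ) ^ j| ≤ M := hDj.trans (div_le_self (Nat.cast_nonneg _) hbj)
  have htot : |z - i' - (D : ℝ) / (b : ℝ) ^ j| < 2 * ε := by
    have : z - i' - (D : ℝ) / (b : ℝ) ^ j = (z - u m) +
        (u m - i' - (D : ℝ) / (b : ℝ) ^ j) := by ring
    rw [this]
    exact (abs_add_le _ _).trans_lt (by linarith)
  rcases lt_or_ge j J with hj | hj
  · have hmem : P (i', D, j) ∈ Q := by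
      refine ⟨(i', D, j), ?_, rfl⟩
      rw [mem_coe, mem_product, mem_product, Finset.mem_Icc, Finset.mem_Icc, Finset.mem_range]
      have h1 := abs_lt.1 htot
      have h2 := abs_le.1 hDj'
      refine ⟨⟨?_, ?_⟩, ⟨(abs_le.1 hD).1, (abs_le.1 hD).2⟩, hj⟩
      · have : (-(M + 3 : ℤ) : ℝ) ≤ (i' : ℝ) := by push_cast; linarith [h1.1, h1.2, h2.1, h2.2]
        exact_mod_cast this
      · have : (i' : ℝ) ≤ ((M + 3 : ℤ) : ℝ) := by push_cast; linarith [h1.1, h1.2, h2.1, h2.2]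
        exact_mod_cast this
    have h3 := hQd _ hmem
    have h4 : z - P (i', D, j) = z - i' - (D : ℝ) / (b : ℝ) ^ j := by simp only [hP]; ring
    rw [h4] at h3
    linarith
  · have h1 : (M : ℝ) / (b : ℝ) ^ j ≤ M / (b : ℝ) ^ J := by
      have : (b : ℝ) ^ J ≤ (b : ℝ) ^ j := pow_le_pow_right₀ (by linarith) hj
      gcongr
    have h2 := hηi i'
    have h3 : |z - i'| ≤ |z - i' - (D : ℝ) / (b : ℝ) ^ j| + |(D : ℝ) / (b : ℝ) ^ j| := by
      have : z - i' = (z - i' - (D : ℝ) / (b : ℝ) ^ j) + (D : ℝ) / (b : ℝ) ^ j := by ring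
      calc |z - i'| = |(z - i' - (D : ℝ) / (b : ℝ) ^ j) + (D : ℝ) / (b : ℝ) ^ j| := by rw [← this]
        _ ≤ _ := abs_add_le _ _
    linarith

end Pool.Agent.R510
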